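import Pool.Agent.Lib_MP_008adc_bi.Defs

/-!
# Available lengths
-/

set_option autoImplicit false

namespace HadCalc

theorem Rep.add {f c n m y z : ℕ} (h1 : Rep f c n y) (h2 : Rep f c m z) :
    Rep f c (n + m) (y + z) := by
  obtain ⟨l1, a1, b1, c1⟩ := h1
  obtain ⟨l2, a2, b2, c2⟩ := h2
  refine ⟨l1 ++ l2, ?_, ?_, ?_⟩
  · rw [List.length_append]
    exact Nat.add_le_add a1 a2
  · intro L hL
    rcases List.mem_append.1 hL with hL | hL
    · exact b1 L hL
    · exact b2 L hL
  · rw [List.sum_append, c1, c2]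

theorem Rep.mono {f c n m y : ℕ} (h : Rep f c n y) (hnm : n ≤ m) : Rep f c m y := by
  obtain ⟨l, a1, b1, c1⟩ := h
  exact ⟨l, a1.trans hnm, b1, c1⟩

theorem Rep.one {f c y : ℕ} (h : Av f c y) : Rep f c 1 y := by
  refine ⟨[y], by simp, ?_, by simp⟩
  intro L hL
  rw [List.mem_singleton.1 hL]
  exact h

/-- A product of at most `K` factors `< 2 ^ a`. -/
theorem item {a f c K : ℕ} (h : Cov a f c) (ha : 1 ≤ a) (hK : 1 ≤ K) (x : List ℕ)
    (hl : x.length ≤ K) (hx : ∀ y ∈ x, y < 2 ^ a) : Av f c (2 ^ EE f K * x.prod) := by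
  have h1 : ∀ y ∈ (x ++ List.replicate (K - x.length) 1), y < 2 ^ a := by
    intro y hy
    rcases List.mem_append.1 hy with hy | hy
    · exact hx y hy
    · rw [List.eq_of_mem_replicate hy]
      exact Nat.one_lt_two_pow (by omega)
  have hlen : (x ++ List.replicate (K - x.length) 1).length = K := by
    rw [List.length_append, List.length_replicate]
    omega
  have hprod : (x ++ List.replicate (K - x.length) 1).prod = x.prod := by
    rw [List.prod_append, List.prod_replicate, one_pow, mul_one]
  obtain ⟨w, hw⟩ : ∃ w, w = x ++ List.replicate (K - x.length) 1 := ⟨_, rfl⟩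
  rw [← hw] at h1 hlen hprod
  have h2 := Av.prod_list (f := f) (c := c) (w.map (fun y => 2 * y)) (by
    intro h0
    have := congrArg List.length h0
    rw [List.length_map, hlen, List.length_nil] at this
    omega) (by
    intro y hy
    obtain ⟨u, hu, rfl⟩ := List.mem_map.1 hy
    exact h _ (h1 u hu))
  have h3 : (w.map (fun y => 2 * y)).prod = 2 ^ K * x.prod := by
    rw [← hprod, ← hlen]
    clear h2 hprod h1 hw hlen
    induction w with
    | nil => simp
    | cons u w ih =>
      rw [List.map_cons, List.prod_cons, ih, List.prod_cons, List.length_cons, pow_succ]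
      ring
  rw [List.length_map, hlen, h3, ← mul_assoc, ← pow_add] at h2
  exact h2

/-- The sum rule for a representation. -/
theorem Rep.av {f c n y : ℕ} (h : Rep f c n y) : Av (f + 1) (n * (c + f + 2)) (2 * y) := by
  obtain ⟨l, hn, hl, hy⟩ := h
  have h1 := Av.sum_list (f := f) (l.map (fun L => (c, L))) (by
    intro x hx
    obtain ⟨L, hL, rfl⟩ := List.mem_map.1 hx
    exact hl L hL)
  rw [List.map_map, List.map_map] at h1
  have h2 : (l.map ((fun x : ℕ × ℕ => x.1 + f + 2) ∘ fun L => (c, L))).sum =
      l.length * (c + f + 2) := by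
    have : ((fun x : ℕ × ℕ => x.1 + f + 2) ∘ fun L => (c, L)) = fun _ : ℕ => c + f + 2 := by
      funext L
      rfl
    rw [this, List.map_const', List.sum_replicate, smul_eq_mul]
  have h3 : (l.map (Prod.snd ∘ fun L => (c, L))).sum = y := by
    have : (Prod.snd ∘ fun L => (c, L)) = fun L : ℕ => L := by
      funext L
      rfl
    rw [this, List.map_id', hy]
  rw [h2, h3] at h1
  exact h1.mono le_rfl (Nat.mul_le_mul_right _ hn)

end HadCalc
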