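import Pool.Agent.Lib_MP_008adc_co.NTern0

/-!
# The exponential sum over all odd numbers below `2 ^ b`
-/

set_option autoImplicit false

namespace HadNT

/-- The sum over the odd numbers below `2 ^ b` vanishes at all `h` of order `2 ^ i`, `2 ≤ i ≤ b`. -/
theorem odd_sum_zero {R b i : ℕ} (hi : 2 ≤ i) (hib : i ≤ b) (h : ZMod (2 ^ R))
    (ho : addOrderOf h = 2 ^ i) :
    Sg (2 ^ R) (Finset.range (2 ^ (b - 1))) (fun y => ((2 * y + 1 : ℕ) : ZMod (2 ^ R))) h = 0 := by
  set ψ : AddChar (ZMod (2 ^ R)) ℂ := ZMod.stdAddChar with hψ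
  unfold Sg
  have h1 : ∀ y ∈ Finset.range (2 ^ (b - 1)),
      (ZMod.stdAddChar (h * ((2 * y + 1 : ℕ) : ZMod (2 ^ R))) : ℂ) = ψ h * ψ (2 • h) ^ y := by
    intro y _
    rw [← hψ, ← AddChar.map_nsmul_eq_pow, ← AddChar.map_add_eq_mul]
    congr 1
    simp only [nsmul_eq_mul]
    push_cast
    ring
  rw [Finset.sum_congr rfl h1, ← Finset.mul_sum]
  have h2 : ψ (2 • h) ≠ 1 := by
    intro h3
    have h4 : 2 • h = 0 := by
      apply ZMod.injective_stdAddChar
      rw [AddChar.map_zero_eq_one]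
      exact h3
    have h5 : addOrderOf h ∣ 2 := addOrderOf_dvd_of_nsmul_eq_zero h4
    rw [ho] at h5
    have h6 := Nat.le_of_dvd (by norm_num) h5
    have h7 : 2 ^ 2 ≤ 2 ^ i := Nat.pow_le_pow_right (by norm_num) hi
    omega
  rw [geom_sum_eq h2]
  have h5 : ψ (2 • h) ^ 2 ^ (b - 1) = 1 := by
    rw [← AddChar.map_nsmul_eq_pow, smul_smul]
    have h6 : (2 ^ (b - 1) * 2) • h = 0 := by
      rw [← pow_succ]
      have h7 : addOrderOf h ∣ 2 ^ (b - 1 + 1) := by
        rw [ho]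
        exact pow_dvd_pow _ (by omega)
      exact addOrderOf_dvd_iff_nsmul_eq_zero.1 h7
    rw [h6, AddChar.map_zero_eq_one]
  rw [h5, sub_self, zero_div, mul_zero]

/-- Multiplication by an odd number preserves an order which is a power of two. -/
theorem order_mul_odd {R i : ℕ} (h : ZMod (2 ^ R)) (ho : addOrderOf h = 2 ^ i) (m : ℕ)
    (hm : Odd m) : addOrderOf (h * (m : ZMod (2 ^ R))) = 2 ^ i := by
  rw [mul_comm, ← nsmul_eq_mul, addOrderOf_nsmul', ho]
  · have h1 : (2 ^ i).gcd m = 1 := Nat.Coprime.pow_left _ (Nat.coprime_two_left.2 hm)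
    rw [h1, Nat.div_one]
  · rintro rfl
    exact absurd hm (by decide)

end HadNT
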