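import Pool.Agent.Lib_MP_008adc_bi.PO
import Pool.Agent.Lib_MP_008adc_bi.OddSum
import Pool.Agent.Lib_MP_008adc_co.NBil

/-!
# A family of products of small odd numbers with small exponential sums
-/

set_option autoImplicit false

namespace HadNT

/-- The inner bilinear sum. -/
theorem inner_bound {R b l k i : ℕ} (hb : 2 ≤ b) (hk : 1 ≤ k) (hl : 4 * b * k ≤ 2 ^ l)
    (hlb : 8 * l + 8 ≤ b) (hi1 : b * k ≤ 2 * i) (hi2 : i ≤ b * k) (h : ZMod (2 ^ R))
    (ho : addOrderOf h = 2 ^ i) :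
    ‖Sg (2 ^ R) (PO (2 ^ b) k ×ˢ PO (2 ^ b) k) (fun x => ((x.1 * x.2 : ℕ) : ZMod (2 ^ R))) h‖ *
      2 ^ (i / 4) ≤ ((PO (2 ^ b) k).card : ℝ) * (PO (2 ^ b) k).card := by
  set U := PO (2 ^ b) k with hU
  set S := ‖Sg (2 ^ R) (U ×ˢ U) (fun x => ((x.1 * x.2 : ℕ) : ZMod (2 ^ R))) h‖ with hS
  have hS0 : 0 ≤ S := norm_nonneg _
  have h1 := bil (2 ^ R) h U U ((2 ^ b) ^ k) (fun u hu => PO_bound hu) (fun u hu => PO_bound hu)
  rw [← hS, ho] at h1
  have hsize := PO_size hb hk hl (by omega)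
  rw [← hU] at hsize
  -- B = 2 ^ (b k), d = 2 ^ i
  have hB : (2 ^ b) ^ k = 2 ^ i * 2 ^ (b * k - i) := by
    rw [← pow_mul, ← pow_add]
    congr 1
    omega
  have hdiv : (2 ^ b) ^ k / 2 ^ i + 1 ≤ 2 * 2 ^ (b * k - i) := by
    rw [hB, Nat.mul_div_cancel_left _ (by positivity)]
    have : 1 ≤ 2 ^ (b * k - i) := Nat.one_le_two_pow
    omega
  have h2 : (((2 ^ b) ^ k / 2 ^ i + 1 : ℕ) : ℝ) ≤ 2 * 2 ^ (b * k - i) := by exact_mod_cast hdiv
  have hu0 : (0 : ℝ) ≤ U.card := Nat.cast_nonneg _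
  have h3 : S ^ 2 ≤ (U.card : ℝ) * U.card * 2 ^ i * (2 * 2 ^ (b * k - i)) ^ 2 := by
    refine h1.trans ?_
    push_cast at h2 ⊢
    have h4 := pow_le_pow_left₀ (by positivity) h2 2
    exact mul_le_mul_of_nonneg_left h4 (by positivity)
  -- 4 * 2^(bk-i)^2 * 2^i * 2^(2(i/4)) ≤ |U|^2
  have h5 : 4 * 2 ^ (b * k) * 2 ^ (b * k) * 2 ^ (2 * (i / 4)) ≤ 2 ^ i * (U.card * U.card) := by
    have e1 : 2 ^ (b * k) ≤ 2 ^ (l * k) * U.card := by rw [pow_mul]; exact hsize
    have e2 : 2 ^ (b * k) * 2 ^ (b * k) ≤ (2 ^ (l * k) * U.card) * (2 ^ (l * k) * U.card) :=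
      Nat.mul_le_mul e1 e1
    have e3 : 4 * 2 ^ (2 * (l * k)) * 2 ^ (2 * (i / 4)) ≤ 2 ^ i := by
      have e4 : (4 : ℕ) = 2 ^ 2 := by norm_num
      rw [e4, ← pow_add, ← pow_add]
      apply Nat.pow_le_pow_right (by norm_num)
      have e5 : (8 * l + 8) * k ≤ b * k := Nat.mul_le_mul_right _ hlb
      have e6 : 8 * (l * k) + 8 * k ≤ b * k := by
        calc 8 * (l * k) + 8 * k = (8 * l + 8) * k := by ring
          _ ≤ b * k := e5
      omega
    calc 4 * 2 ^ (b * k) * 2 ^ (b * k) * 2 ^ (2 * (i / 4))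
        = 4 * (2 ^ (b * k) * 2 ^ (b * k)) * 2 ^ (2 * (i / 4)) := by ring
      _ ≤ 4 * ((2 ^ (l * k) * U.card) * (2 ^ (l * k) * U.card)) * 2 ^ (2 * (i / 4)) :=
          Nat.mul_le_mul_right _ (Nat.mul_le_mul_left _ e2)
      _ = (4 * 2 ^ (2 * (l * k)) * 2 ^ (2 * (i / 4))) * (U.card * U.card) := by
          rw [two_mul (l * k), pow_add]
          ring
      _ ≤ 2 ^ i * (U.card * U.card) := Nat.mul_le_mul_right _ e3
  have h6 : (4 : ℝ) * 2 ^ (b * k) * 2 ^ (b * k) * 2 ^ (2 * (i / 4)) ≤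
      2 ^ i * ((U.card : ℝ) * U.card) := by exact_mod_cast h5
  have h7 : (S * 2 ^ (i / 4)) ^ 2 ≤ ((U.card : ℝ) * U.card) ^ 2 := by
    have hi0 : (0 : ℝ) < 2 ^ i := by positivity
    refine le_of_mul_le_mul_left ?_ hi0
    have e7 : (2 : ℝ) ^ (b * k) = 2 ^ i * 2 ^ (b * k - i) := by
      rw [← pow_add]
      congr 1
      omega
    have e8 : (2 : ℝ) ^ (2 * (i / 4)) = (2 ^ (i / 4)) ^ 2 := by
      rw [← pow_mul]
      congr 1
      ring
    calc (2 : ℝ) ^ i * (S * 2 ^ (i / 4)) ^ 2 = S ^ 2 * (2 ^ i * (2 ^ (i / 4)) ^ 2) := by ring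
      _ ≤ ((U.card : ℝ) * U.card * 2 ^ i * (2 * 2 ^ (b * k - i)) ^ 2) *
          (2 ^ i * (2 ^ (i / 4)) ^ 2) :=
          mul_le_mul_of_nonneg_right h3 (by positivity)
      _ = ((U.card : ℝ) * U.card) *
          (4 * (2 ^ i * 2 ^ (b * k - i)) * (2 ^ i * 2 ^ (b * k - i)) * (2 ^ (i / 4)) ^ 2) := by
          ring
      _ = ((U.card : ℝ) * U.card) * (4 * 2 ^ (b * k) * 2 ^ (b * k) * 2 ^ (2 * (i / 4))) := by
          rw [e7, e8]
      _ ≤ ((U.card : ℝ) * U.card) * (2 ^ i * ((U.card : ℝ) * U.card)) :=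
          mul_le_mul_of_nonneg_left h6 (by positivity)
      _ = 2 ^ i * ((U.card : ℝ) * U.card) ^ 2 := by ring
  exact le_of_sq_le_sq h7 (by positivity)

/-- THE FAMILY. -/
theorem blocks (b l : ℕ) (hb : 2 ≤ b) (hlb : 8 * l + 8 ≤ b) (J : ℕ) (hJ : 4 * b * 2 ^ J ≤ 2 ^ l) :
    ∃ (τ : Type) (T : Finset τ) (g : τ → ℕ), T.Nonempty ∧ (∀ t ∈ T, Odd (g t)) ∧
      (∀ t ∈ T, ∃ x : List ℕ, x.length + 3 ≤ 2 ^ (J + 2) ∧ (∀ y ∈ x, y < 2 ^ b) ∧
        x.prod = g t) ∧
      (∀ t ∈ T, g t * 2 ^ (3 * b) ≤ 2 ^ (b * 2 ^ (J + 2))) ∧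
      ∀ (R : ℕ) (h : ZMod (2 ^ R)) (i : ℕ), 2 ≤ i → i ≤ b * 2 ^ J → addOrderOf h = 2 ^ i →
        (i ≤ b → Sg (2 ^ R) T (fun t => (g t : ZMod (2 ^ R))) h = 0) ∧
        ‖Sg (2 ^ R) T (fun t => (g t : ZMod (2 ^ R))) h‖ * 2 ^ (i / 4) ≤ T.card := by
  induction J with
  | zero =>
    refine ⟨ℕ, Finset.range (2 ^ (b - 1)), fun y => 2 * y + 1, ?_, ?_, ?_, ?_, ?_⟩
    · exact ⟨0, Finset.mem_range.2 (by positivity)⟩
    · intro t _
      exact odd_two_mul_add_one t
    · intro t ht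
      refine ⟨[2 * t + 1], by simp, ?_, by simp⟩
      intro y hy
      rw [List.mem_singleton.1 hy]
      have h1 := Finset.mem_range.1 ht
      have h2 : 2 ^ b = 2 * 2 ^ (b - 1) := by
        rw [← pow_succ']
        congr 1
        omega
      omega
    · intro t ht
      have h1 := Finset.mem_range.1 ht
      have h2 : 2 ^ b = 2 * 2 ^ (b - 1) := by
        rw [← pow_succ']
        congr 1
        omega
      have h3 : 2 * t + 1 ≤ 2 ^ b := by omega
      calc (2 * t + 1) * 2 ^ (3 * b) ≤ 2 ^ b * 2 ^ (3 * b) := Nat.mul_le_mul_right _ h3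
        _ = 2 ^ (b * 2 ^ (0 + 2)) := by
            rw [← pow_add]
            congr 1
            ring
    · intro R h i hi hib ho
      have hib' : i ≤ b := by simpa using hib
      have h0 := odd_sum_zero hi hib' h ho
      refine ⟨fun _ => h0, ?_⟩
      rw [h0, norm_zero, zero_mul]
      exact Nat.cast_nonneg _
  | succ J ih =>
    have hJ' : 4 * b * 2 ^ J ≤ 2 ^ l :=
      (Nat.mul_le_mul_left _ (Nat.pow_le_pow_right (by norm_num) (Nat.le_succ J))).trans hJ
    obtain ⟨τ, T, g, hne, hodd, hprod, hsize, hS⟩ := ih hJ'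
    obtain ⟨k, hk⟩ : ∃ k, k = 2 ^ (J + 1) := ⟨_, rfl⟩
    have hk1 : 1 ≤ k := by rw [hk]; exact Nat.one_le_two_pow
    have hk2 : 2 ^ (J + 2) = 2 * k := by rw [hk]; ring
    have hk3 : 2 ^ (J + 1 + 2) = 4 * k := by rw [hk]; ring
    have hk4 : 2 * 2 ^ J = k := by rw [hk]; ring
    have hJk : 4 * b * k ≤ 2 ^ l := by rw [hk]; exact hJ
    obtain ⟨U, hU⟩ : ∃ U, U = PO (2 ^ b) k := ⟨_, rfl⟩
    have hUne : U.Nonempty := by
      rw [← Finset.card_pos]
      have := PO_size hb hk1 hJk (by omega)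
      rw [← hU] at this
      rcases Nat.eq_zero_or_pos U.card with h0 | h0
      · rw [h0, mul_zero] at this
        have h1 : 0 < (2 ^ b) ^ k := by positivity
        omega
      · exact h0
    refine ⟨τ × (ℕ × ℕ), T ×ˢ (U ×ˢ U), fun t => g t.1 * (t.2.1 * t.2.2), ?_, ?_, ?_, ?_, ?_⟩
    · exact hne.product (hUne.product hUne)
    · intro t ht
      rw [Finset.mem_product, Finset.mem_product] at ht
      have h1 := hodd _ ht.1
      have h2 : Odd t.2.1 := by
        have := ht.2.1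
        rw [hU] at this
        exact PO_odd this
      have h3 : Odd t.2.2 := by
        have := ht.2.2
        rw [hU] at this
        exact PO_odd this
      exact h1.mul (h2.mul h3)
    · intro t ht
      rw [Finset.mem_product, Finset.mem_product] at ht
      obtain ⟨x, hx1, hx2, hx3⟩ := hprod _ ht.1
      have h2 := ht.2.1
      have h3 := ht.2.2
      rw [hU] at h2 h3
      obtain ⟨y, hy1, hy2, hy3⟩ := PO_prod hb h2
      obtain ⟨z, hz1, hz2, hz3⟩ := PO_prod hb h3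
      refine ⟨x ++ (y ++ z), ?_, ?_, ?_⟩
      · rw [List.length_append, List.length_append, hy1, hz1]
        omega
      · intro w hw
        rw [List.mem_append, List.mem_append] at hw
        rcases hw with hw | hw | hw
        · exact hx2 w hw
        · exact hy2 w hw
        · exact hz2 w hw
      · rw [List.prod_append, List.prod_append, hx3, hy3, hz3]
    · intro t ht
      rw [Finset.mem_product, Finset.mem_product] at ht
      have h1 := hsize _ ht.1
      have h2 := ht.2.1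
      have h3 := ht.2.2
      rw [hU] at h2 h3
      have h4 := (PO_bound h2).2
      have h5 := (PO_bound h3).2
      calc g t.1 * (t.2.1 * t.2.2) * 2 ^ (3 * b) = (g t.1 * 2 ^ (3 * b)) * (t.2.1 * t.2.2) := by
            ring
        _ ≤ 2 ^ (b * 2 ^ (J + 2)) * ((2 ^ b) ^ k * (2 ^ b) ^ k) :=
            Nat.mul_le_mul h1 (Nat.mul_le_mul h4 h5)
        _ = 2 ^ (b * 2 ^ (J + 1 + 2)) := by
            rw [← pow_mul, ← pow_add, ← pow_add, hk2, hk3]
            congr 1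
            ring
    · intro R h i hi hib ho
      have hsplit : Sg (2 ^ R) (T ×ˢ (U ×ˢ U))
          (fun t => ((g t.1 * (t.2.1 * t.2.2) : ℕ) : ZMod (2 ^ R))) h =
          ∑ p ∈ U ×ˢ U, Sg (2 ^ R) T (fun t => (g t : ZMod (2 ^ R)))
            (h * ((p.1 * p.2 : ℕ) : ZMod (2 ^ R))) := by
        unfold Sg
        rw [Finset.sum_product, Finset.sum_comm]
        refine Finset.sum_congr rfl fun p _ => Finset.sum_congr rfl fun t _ => ?_
        congr 1
        push_cast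
        ring
      have hsplit2 : Sg (2 ^ R) (T ×ˢ (U ×ˢ U))
          (fun t => ((g t.1 * (t.2.1 * t.2.2) : ℕ) : ZMod (2 ^ R))) h =
          ∑ t ∈ T, Sg (2 ^ R) (U ×ˢ U) (fun p => ((p.1 * p.2 : ℕ) : ZMod (2 ^ R)))
            (h * ((g t : ℕ) : ZMod (2 ^ R))) := by
        unfold Sg
        rw [Finset.sum_product]
        refine Finset.sum_congr rfl fun t _ => Finset.sum_congr rfl fun p _ => ?_
        congr 1
        push_cast
        ring
      have hord : ∀ p ∈ U ×ˢ U, addOrderOf (h * ((p.1 * p.2 : ℕ) : ZMod (2 ^ R))) = 2 ^ i := by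
        intro p hp
        rw [Finset.mem_product, hU] at hp
        exact order_mul_odd h ho _ ((PO_odd hp.1).mul (PO_odd hp.2))
      have hcard : ((T ×ˢ (U ×ˢ U)).card : ℝ) = T.card * (U.card * U.card) := by
        rw [Finset.card_product, Finset.card_product]
        push_cast
        ring
      have hb1 : b ≤ b * 2 ^ J := Nat.le_mul_of_pos_right _ (by positivity)
      constructor
      · intro hib2
        rw [hsplit]
        refine Finset.sum_eq_zero fun p hp => ?_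
        exact (hS R _ i hi (hib2.trans hb1) (hord p hp)).1 hib2
      · rcases Nat.lt_or_ge (b * 2 ^ J) i with hlt | hge
        · -- bilinear block
          rw [hsplit2, hcard]
          calc ‖∑ t ∈ T, Sg (2 ^ R) (U ×ˢ U) (fun p => ((p.1 * p.2 : ℕ) : ZMod (2 ^ R)))
                (h * ((g t : ℕ) : ZMod (2 ^ R)))‖ * 2 ^ (i / 4)
              ≤ (∑ t ∈ T, ‖Sg (2 ^ R) (U ×ˢ U) (fun p => ((p.1 * p.2 : ℕ) : ZMod (2 ^ R)))
                (h * ((g t : ℕ) : ZMod (2 ^ R)))‖) * 2 ^ (i / 4) :=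
                mul_le_mul_of_nonneg_right (norm_sum_le _ _) (by positivity)
            _ = ∑ t ∈ T, ‖Sg (2 ^ R) (U ×ˢ U) (fun p => ((p.1 * p.2 : ℕ) : ZMod (2 ^ R)))
                (h * ((g t : ℕ) : ZMod (2 ^ R)))‖ * 2 ^ (i / 4) := by rw [Finset.sum_mul]
            _ ≤ ∑ t ∈ T, (U.card : ℝ) * U.card := by
                refine Finset.sum_le_sum fun t ht => ?_
                rw [hU]
                refine inner_bound hb hk1 hJk hlb ?_ ?_ _ (order_mul_odd h ho _ (hodd t ht))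
                · have : b * k = 2 * (b * 2 ^ J) := by rw [← hk4]; ring
                  omega
                · rw [hk]; exact hib
            _ = T.card * (U.card * U.card) := by
                rw [Finset.sum_const, nsmul_eq_mul]
        · rw [hsplit, hcard]
          calc ‖∑ p ∈ U ×ˢ U, Sg (2 ^ R) T (fun t => (g t : ZMod (2 ^ R)))
                (h * ((p.1 * p.2 : ℕ) : ZMod (2 ^ R)))‖ * 2 ^ (i / 4)
              ≤ (∑ p ∈ U ×ˢ U, ‖Sg (2 ^ R) T (fun t => (g t : ZMod (2 ^ R)))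
                (h * ((p.1 * p.2 : ℕ) : ZMod (2 ^ R)))‖) * 2 ^ (i / 4) :=
                mul_le_mul_of_nonneg_right (norm_sum_le _ _) (by positivity)
            _ = ∑ p ∈ U ×ˢ U, ‖Sg (2 ^ R) T (fun t => (g t : ZMod (2 ^ R)))
                (h * ((p.1 * p.2 : ℕ) : ZMod (2 ^ R)))‖ * 2 ^ (i / 4) := by rw [Finset.sum_mul]
            _ ≤ ∑ p ∈ U ×ˢ U, (T.card : ℝ) :=
                Finset.sum_le_sum fun p hp => (hS R _ i hi hge (hord p hp)).2
            _ = T.card * (U.card * U.card) := by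
                rw [Finset.sum_const, nsmul_eq_mul, Finset.card_product]
                push_cast
                ring

end HadNT
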