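import Pool.Agent.Lib_MP_008adc_co.NTern0

/-!
# Sums of eight members of a family of odd numbers modulo a power of two
-/

set_option autoImplicit false

namespace HadNT

private theorem norm_psi8 (M : ℕ) [NeZero M] (x : ZMod M) : ‖(ZMod.stdAddChar x : ℂ)‖ = 1 := by
  rw [ZMod.stdAddChar_apply]
  exact Circle.norm_coe _

private theorem psi_sum8 (M : ℕ) [NeZero M] {ι : Type} (s : Finset ι) (f : ι → ZMod M) :
    (ZMod.stdAddChar (∑ j ∈ s, f j) : ℂ) = ∏ j ∈ s, (ZMod.stdAddChar (f j) : ℂ) := by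
  classical
  induction s using Finset.induction_on with
  | empty => simp
  | insert a s ha ih => rw [Finset.sum_insert ha, Finset.prod_insert ha,
      AddChar.map_add_eq_mul, ih]

/-- EIGHT SUMMANDS. -/
theorem eight {R b : ℕ} (hb : 7 ≤ b) {τ : Type} (T : Finset τ) (g : τ → ℕ)
    (hT : T.Nonempty) (hodd : ∀ t ∈ T, Odd (g t))
    (hz : ∀ (h : ZMod (2 ^ R)) (i : ℕ), 2 ≤ i → i ≤ b → addOrderOf h = 2 ^ i →
      Sg (2 ^ R) T (fun t => (g t : ZMod (2 ^ R))) h = 0)
    (hs : ∀ (h : ZMod (2 ^ R)) (i : ℕ), b < i → addOrderOf h = 2 ^ i →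
      ‖Sg (2 ^ R) T (fun t => (g t : ZMod (2 ^ R))) h‖ * 2 ^ (i / 4) ≤ T.card)
    (n : ℕ) (hn : Even n) :
    ∃ t : Fin 8 → τ, (∀ j, t j ∈ T) ∧ ((∑ j, g (t j) : ℕ) : ZMod (2 ^ R)) = n := by
  classical
  by_contra hcon
  push Not at hcon
  set S : ZMod (2 ^ R) → ℂ := Sg (2 ^ R) T (fun t => (g t : ZMod (2 ^ R))) with hSdef
  set c : ℝ := (T.card : ℝ) with hc
  have hc0 : 0 < c := by
    rw [hc]
    exact_mod_cast Finset.card_pos.2 hT
  -- the total sum vanishes
  have hsum : ∑ h : ZMod (2 ^ R), S h ^ 8 * (ZMod.stdAddChar (-(h * (n : ZMod (2 ^ R)))) : ℂ) = 0 := by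
    have h1 : ∀ h : ZMod (2 ^ R), S h ^ 8 * (ZMod.stdAddChar (-(h * (n : ZMod (2 ^ R)))) : ℂ) =
        ∑ p ∈ Fintype.piFinset (fun _ : Fin 8 => T),
          (ZMod.stdAddChar (h * (((∑ j, g (p j) : ℕ) : ZMod (2 ^ R)) - (n : ZMod (2 ^ R)))) : ℂ) := by
      intro h
      have h2 : S h ^ 8 = ∏ _j : Fin 8, S h := by
        rw [Finset.prod_const, Finset.card_univ, Fintype.card_fin]
      rw [h2, hSdef]
      unfold Sg
      rw [Finset.prod_univ_sum, Finset.sum_mul]
      refine Finset.sum_congr rfl fun p _ => ?_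
      rw [← psi_sum8, ← AddChar.map_add_eq_mul]
      congr 1
      push_cast
      rw [mul_sub, Finset.mul_sum, sub_eq_add_neg]
    rw [Finset.sum_congr rfl (fun h _ => h1 h), Finset.sum_comm]
    refine Finset.sum_eq_zero fun p hp => ?_
    rw [orth, if_neg]
    intro h0
    exact hcon p (fun j => Fintype.mem_piFinset.1 hp j) (sub_eq_zero.1 h0)
  -- the order of every element
  have hord : ∀ h : ZMod (2 ^ R), ∃ i ≤ R, addOrderOf h = 2 ^ i := by
    intro h
    have h1 : addOrderOf h ∣ 2 ^ R := by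
      have := addOrderOf_dvd_card (x := h)
      rwa [ZMod.card] at this
    exact (Nat.dvd_prime_pow Nat.prime_two).1 h1
  -- the weights
  let w : ℕ → ℝ := fun i => c ^ 8 * 64 * (1 / 4) ^ i
  have hw0 : ∀ i, 0 ≤ w i := fun i => by positivity
  let W : ZMod (2 ^ R) → ℝ := fun h =>
    ∑ i ∈ Finset.Ico (b + 1) (R + 1), if addOrderOf h = 2 ^ i then w i else 0
  have hW0 : ∀ h, 0 ≤ W h := fun h =>
    Finset.sum_nonneg fun i _ => by split_ifs <;> [exact hw0 i; exact le_rfl]
  have hterm : ∀ h : ZMod (2 ^ R), h ≠ 0 →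
      -W h ≤ (S h ^ 8 * (ZMod.stdAddChar (-(h * (n : ZMod (2 ^ R)))) : ℂ)).re := by
    intro h hh
    obtain ⟨i, hiR, hi⟩ := hord h
    rcases Nat.lt_or_ge i 2 with hi2 | hi2
    · -- order one or two
      have hi1 : i = 1 := by
        have h0 : i ≠ 0 := by
          rintro rfl
          rw [pow_zero, AddMonoid.addOrderOf_eq_one_iff] at hi
          exact hh hi
        omega
      rw [hi1, pow_one] at hi
      have h2h : 2 • h = 0 := by
        have h1 := addOrderOf_nsmul_eq_zero h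
        rwa [hi] at h1
      have h2h' : (2 : ZMod (2 ^ R)) * h = 0 := by
        rw [nsmul_eq_mul] at h2h
        exact_mod_cast h2h
      have hg : ∀ t ∈ T, h * (g t : ZMod (2 ^ R)) = h := by
        intro t ht
        obtain ⟨m, hm⟩ := hodd t ht
        rw [hm]
        push_cast
        calc h * (2 * (m : ZMod (2 ^ R)) + 1) = (2 * h) * m + h := by ring
          _ = h := by rw [h2h', zero_mul, zero_add]
      have hSh : S h = (T.card : ℂ) * ZMod.stdAddChar h := by
        rw [hSdef]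
        unfold Sg
        rw [Finset.sum_congr rfl fun t ht => by rw [hg t ht], Finset.sum_const, nsmul_eq_mul]
      have hψ : (ZMod.stdAddChar h : ℂ) ^ 2 = 1 := by
        rw [← AddChar.map_nsmul_eq_pow, h2h, AddChar.map_zero_eq_one]
      have hψ8 : (ZMod.stdAddChar h : ℂ) ^ 8 = 1 := by
        calc (ZMod.stdAddChar h : ℂ) ^ 8 = ((ZMod.stdAddChar h : ℂ) ^ 2) ^ 4 := by ring
          _ = 1 := by rw [hψ, one_pow]
      have hhn : h * (n : ZMod (2 ^ R)) = 0 := by
        obtain ⟨m, hm⟩ := hn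
        rw [hm]
        push_cast
        calc h * ((m : ZMod (2 ^ R)) + m) = (2 * h) * m := by ring
          _ = 0 := by rw [h2h', zero_mul]
      rw [hSh, mul_pow, hψ8, hhn, neg_zero, AddChar.map_zero_eq_one, mul_one, mul_one]
      have h3 : ((T.card : ℂ) ^ 8).re = c ^ 8 := by
        rw [hc]
        have : ((T.card : ℂ) ^ 8) = (((T.card : ℝ) ^ 8 : ℝ) : ℂ) := by push_cast; rfl
        rw [this, Complex.ofReal_re]
      rw [h3]
      have h4 := hW0 h
      have h5 : 0 ≤ c ^ 8 := by positivity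
      linarith
    · have h1 : -‖S h‖ ^ 8 ≤ (S h ^ 8 * (ZMod.stdAddChar (-(h * (n : ZMod (2 ^ R)))) : ℂ)).re := by
        have h2 := Complex.abs_re_le_norm (S h ^ 8 * (ZMod.stdAddChar (-(h * (n : ZMod (2 ^ R)))) : ℂ))
        rw [norm_mul, norm_psi8, mul_one, norm_pow] at h2
        have h3 := neg_abs_le (S h ^ 8 * (ZMod.stdAddChar (-(h * (n : ZMod (2 ^ R)))) : ℂ)).re
        linarith
      refine le_trans ?_ h1
      have h4 : ‖S h‖ ^ 8 ≤ W h := by
        rcases Nat.lt_or_ge b i with hbi | hbi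
        · have h5 := hs h i hbi hi
          have h6 : ‖S h‖ ^ 8 ≤ w i := by
            have h7 : (‖S h‖ * 2 ^ (i / 4)) ^ 8 ≤ c ^ 8 :=
              pow_le_pow_left₀ (by positivity) h5 8
            have h8 : (4 : ℝ) ^ i ≤ 64 * (2 ^ (i / 4)) ^ 8 := by
              have e1 : (4 : ℕ) ^ i ≤ 64 * (2 ^ (i / 4)) ^ 8 := by
                have e2 : (4 : ℕ) ^ i = 2 ^ (2 * i) := by rw [pow_mul]; norm_num
                have e3 : 64 * (2 ^ (i / 4)) ^ 8 = 2 ^ (6 + (i / 4) * 8) := by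
                  rw [← pow_mul, pow_add]; norm_num
                rw [e2, e3]
                exact Nat.pow_le_pow_right (by norm_num) (by omega)
              exact_mod_cast e1
            show ‖S h‖ ^ 8 ≤ c ^ 8 * 64 * (1 / 4) ^ i
            have h9 : (0 : ℝ) < 4 ^ i := by positivity
            have h10 : (1 / 4 : ℝ) ^ i = 1 / 4 ^ i := by rw [one_div_pow]
            rw [h10, mul_one_div, le_div_iff₀ h9]
            calc ‖S h‖ ^ 8 * 4 ^ i ≤ ‖S h‖ ^ 8 * (64 * (2 ^ (i / 4)) ^ 8) :=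
                  mul_le_mul_of_nonneg_left h8 (by positivity)
              _ = (‖S h‖ * 2 ^ (i / 4)) ^ 8 * 64 := by ring
              _ ≤ c ^ 8 * 64 := mul_le_mul_of_nonneg_right h7 (by norm_num)
          refine h6.trans ?_
          have h11 : i ∈ Finset.Ico (b + 1) (R + 1) := Finset.mem_Ico.2 ⟨hbi, by omega⟩
          have h12 := Finset.single_le_sum (s := Finset.Ico (b + 1) (R + 1))
            (f := fun j => if addOrderOf h = 2 ^ j then w j else 0)
            (fun j _ => by split_ifs <;> [exact hw0 j; exact le_rfl]) h11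
          have h13 : (if addOrderOf h = 2 ^ i then w i else 0) = w i := if_pos hi
          calc w i = (if addOrderOf h = 2 ^ i then w i else 0) := h13.symm
            _ ≤ W h := h12
        · have h5 : S h = 0 := hz h i hi2 hbi hi
          rw [h5, norm_zero]
          simpa using hW0 h
      linarith
  -- total weight
  have hWsum : ∑ h : ZMod (2 ^ R), W h ≤ c ^ 8 * (1 / 2) := by
    have h1 : ∑ h : ZMod (2 ^ R), W h =
        ∑ i ∈ Finset.Ico (b + 1) (R + 1),
          ((Finset.univ.filter (fun h : ZMod (2 ^ R) => addOrderOf h = 2 ^ i)).card : ℝ) * w i := by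
      show ∑ h : ZMod (2 ^ R), ∑ i ∈ Finset.Ico (b + 1) (R + 1),
        (if addOrderOf h = 2 ^ i then w i else 0) = _
      rw [Finset.sum_comm]
      refine Finset.sum_congr rfl fun i _ => ?_
      rw [← Finset.sum_filter, Finset.sum_const, nsmul_eq_mul]
    rw [h1]
    have h2 : ∀ i ∈ Finset.Ico (b + 1) (R + 1),
        ((Finset.univ.filter (fun h : ZMod (2 ^ R) => addOrderOf h = 2 ^ i)).card : ℝ) * w i ≤
          c ^ 8 * 64 * (1 / 2) ^ i := by
      intro i _
      have h3 : (Finset.univ.filter (fun h : ZMod (2 ^ R) => addOrderOf h = 2 ^ i)).card ≤ 2 ^ i := by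
        have h4 : (Finset.univ.filter (fun h : ZMod (2 ^ R) => (2 ^ i) • h = 0)).card ≤ 2 ^ i :=
          IsAddCyclic.card_nsmul_eq_zero_le (by positivity)
        refine (Finset.card_le_card ?_).trans h4
        intro h hh
        rw [Finset.mem_filter] at hh ⊢
        refine ⟨hh.1, ?_⟩
        rw [← hh.2]
        exact addOrderOf_nsmul_eq_zero h
      have h3' : ((Finset.univ.filter (fun h : ZMod (2 ^ R) => addOrderOf h = 2 ^ i)).card : ℝ) ≤
          2 ^ i := by exact_mod_cast h3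
      calc ((Finset.univ.filter (fun h : ZMod (2 ^ R) => addOrderOf h = 2 ^ i)).card : ℝ) * w i
          ≤ 2 ^ i * w i := mul_le_mul_of_nonneg_right h3' (hw0 i)
        _ = c ^ 8 * 64 * (2 ^ i * (1 / 4) ^ i) := by
            show 2 ^ i * (c ^ 8 * 64 * (1 / 4) ^ i) = _
            ring
        _ = c ^ 8 * 64 * (1 / 2) ^ i := by
            rw [← mul_pow]
            norm_num
    refine (Finset.sum_le_sum h2).trans ?_
    rw [← Finset.mul_sum]
    have h5 : ∑ i ∈ Finset.Ico (b + 1) (R + 1), (1 / 2 : ℝ) ^ i ≤ (1 / 2) ^ (b + 1) / (1 - 1 / 2) :=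
      geom_sum_Ico_le_of_lt_one (by norm_num) (by norm_num)
    have h6 : (1 / 2 : ℝ) ^ (b + 1) / (1 - 1 / 2) ≤ 1 / 128 := by
      have h7 : (1 / 2 : ℝ) ^ (b + 1) ≤ (1 / 2) ^ 8 :=
        pow_le_pow_of_le_one (by norm_num) (by norm_num) (by omega)
      have h8 : (1 / 2 : ℝ) ^ 8 = 1 / 256 := by norm_num
      rw [h8] at h7
      have h9 : (1 / 2 : ℝ) ^ (b + 1) / (1 - 1 / 2) = 2 * (1 / 2) ^ (b + 1) := by ring
      rw [h9]
      linarith
    have h10 : 0 ≤ c ^ 8 * 64 := by positivity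
    calc c ^ 8 * 64 * ∑ i ∈ Finset.Ico (b + 1) (R + 1), (1 / 2 : ℝ) ^ i
        ≤ c ^ 8 * 64 * (1 / 128) := mul_le_mul_of_nonneg_left (h5.trans h6) h10
      _ = c ^ 8 * (1 / 2) := by ring
  -- the real part
  have hre : (0 : ℝ) = ∑ h : ZMod (2 ^ R), (S h ^ 8 * (ZMod.stdAddChar (-(h * (n : ZMod (2 ^ R)))) : ℂ)).re := by
    rw [← Complex.re_sum, hsum, Complex.zero_re]
  rw [← Finset.add_sum_erase _ _ (Finset.mem_univ (0 : ZMod (2 ^ R)))] at hre
  have h0 : (S 0 ^ 8 * (ZMod.stdAddChar (-((0 : ZMod (2 ^ R)) * (n : ZMod (2 ^ R)))) : ℂ)).re = c ^ 8 := by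
    have h1 : S 0 = (T.card : ℂ) := by
      rw [hSdef]
      unfold Sg
      simp
    rw [h1, zero_mul, neg_zero, AddChar.map_zero_eq_one, mul_one]
    have : ((T.card : ℂ) ^ 8) = (((T.card : ℝ) ^ 8 : ℝ) : ℂ) := by push_cast; rfl
    rw [this, Complex.ofReal_re]
  rw [h0] at hre
  have h2 : -∑ h ∈ Finset.univ.erase (0 : ZMod (2 ^ R)), W h ≤
      ∑ h ∈ Finset.univ.erase (0 : ZMod (2 ^ R)),
        (S h ^ 8 * (ZMod.stdAddChar (-(h * (n : ZMod (2 ^ R)))) : ℂ)).re := by
    rw [← Finset.sum_neg_distrib]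
    exact Finset.sum_le_sum fun h hh => hterm h (Finset.ne_of_mem_erase hh)
  have h3 : ∑ h ∈ Finset.univ.erase (0 : ZMod (2 ^ R)), W h ≤ ∑ h : ZMod (2 ^ R), W h :=
    Finset.sum_le_sum_of_subset_of_nonneg (Finset.erase_subset _ _) (fun h _ _ => hW0 h)
  have h4 : 0 < c ^ 8 := by positivity
  linarith

end HadNT
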