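import Pool.Agent.Lib_MP_008adc_co.CovA

/-!
# Representations as short sums of available lengths
-/

set_option autoImplicit false

namespace HadCalc

/-- The exponent of two of a product of `K` factors. -/
def EE (f K : ℕ) : ℕ := f * (K - 1) + K

/-- `y` is a sum of at most `n` lengths which are available with `(f, c)`. -/
def Rep (f c n y : ℕ) : Prop := ∃ l : List ℕ, l.length ≤ n ∧ (∀ L ∈ l, Av f c L) ∧ l.sum = y

end HadCalc
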