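import Pool.Agent.Lib_MP_008adc_co.DetL

/-!
# DetB2: lower bound for the normalised maximal determinant, exponent
`log log n (log log log n) ^ 2`
-/

set_option autoImplicit false

namespace HadCalc

/-- The determinant bound from the Hadamard orders (`hadOrder_lll` and `hadOrder_small2` are the
two hypotheses). -/
theorem rDet_lll_of
    (h1' : ∃ C : ℝ, 0 < C ∧ ∀ q t : ℕ, 16 ≤ q →
      C * Real.log (Real.log q) * Real.log (Real.log (Real.log q)) ^ 2 ≤ t →
        HadOrder (2 ^ t * q))
    (h2' : ∃ C : ℕ, ∀ q t : ℕ, 0 < q → q < 16 → C ≤ t → HadOrder (2 ^ t * q)) :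
    ∃ C : ℝ, ∀ n : ℕ, 16 ≤ n →
    Real.exp (-Real.exp (C * Real.log (Real.log n) * Real.log (Real.log (Real.log n)) ^ 2)) ≤
      rDet n := by
  obtain ⟨C₁, hC₁, h1⟩ := h1'
  obtain ⟨C₂, h2⟩ := h2'
  refine ⟨C₁ + (C₂ + 3) * 20000, fun n hn => ?_⟩
  -- elementary facts on logarithms
  have hl2 : (0.6931471803 : ℝ) < Real.log 2 := Real.log_two_gt_d9
  have hl2' : Real.log 2 < 1 := by
    have := Real.log_two_lt_d9
    linarith
  have hlog16 : ∀ q : ℕ, 16 ≤ q → 4 * Real.log 2 ≤ Real.log q := by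
    intro q hq
    have h3 : Real.log ((2 : ℝ) ^ 4) ≤ Real.log q := by
      apply Real.log_le_log (by norm_num)
      have h0 : (16 : ℝ) ≤ q := by exact_mod_cast hq
      linarith
    rw [Real.log_pow] at h3
    exact_mod_cast h3
  have hexp : Real.exp (1.01 : ℝ) < 2.77 := by
    have e1 : Real.exp (1.01 : ℝ) = Real.exp 1 * Real.exp (0.01 : ℝ) := by
      rw [← Real.exp_add]
      norm_num
    have e2 : Real.exp (0.01 : ℝ) ≤ 1 / (1 - 0.01) := by
      have e3 := Real.one_sub_le_exp_neg (0.01 : ℝ)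
      rw [Real.exp_neg] at e3
      rw [one_div]
      have hpos : 0 < Real.exp (0.01 : ℝ) := Real.exp_pos _
      rw [← inv_inv (Real.exp (0.01 : ℝ))]
      apply inv_anti₀ (by norm_num) e3
    have e4 := Real.exp_one_lt_d9
    have e5 : 0 < Real.exp (1 : ℝ) := Real.exp_pos _
    rw [e1]
    calc Real.exp 1 * Real.exp 0.01 ≤ 2.7182818286 * (1 / (1 - 0.01)) := by
          apply mul_le_mul e4.le e2 (Real.exp_pos _).le (by norm_num)
      _ < 2.77 := by norm_num
  have hll : ∀ q : ℕ, 16 ≤ q → 1.01 ≤ Real.log (Real.log q) := by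
    intro q hq
    have h3 := hlog16 q hq
    rw [Real.le_log_iff_exp_le (by linarith)]
    linarith
  have hn0 : (0 : ℝ) < n := by
    have : 0 < n := by omega
    exact_mod_cast this
  have hlogn : 4 * Real.log 2 ≤ Real.log n := hlog16 n hn
  have hlogn0 : 0 < Real.log n := by linarith
  set x : ℝ := Real.log (Real.log n) with hx
  have hx1 : 1.01 ≤ x := hll n hn
  have hex : Real.exp x = Real.log n := Real.exp_log hlogn0
  set y : ℝ := Real.log x with hy
  have hy1 : 0.0099 ≤ y := by
    have e1 := Real.one_sub_inv_le_log_of_pos (show (0 : ℝ) < x by linarith)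
    have e2 : x⁻¹ ≤ (1.01 : ℝ)⁻¹ := inv_anti₀ (by norm_num) hx1
    have e3 : (1 : ℝ) - (1.01 : ℝ)⁻¹ ≥ 0.0099 := by norm_num
    linarith
  have hy2 : 1 / 20000 ≤ y ^ 2 := by nlinarith
  set w : ℝ := x * y ^ 2 with hw
  have hw1 : x ≤ 20000 * w := by
    rw [hw]
    nlinarith
  have hw0 : 0 ≤ w := by positivity
  set t : ℕ := ⌈C₁ * w⌉₊ + C₂ with ht
  have hx3 : 0 ≤ C₁ * w := by positivity
  have htl : C₁ * w ≤ t := by
    rw [ht]
    push_cast
    have h3 := Nat.le_ceil (C₁ * w)
    have h4 : (0 : ℝ) ≤ C₂ := Nat.cast_nonneg _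
    linarith
  have htu : (t : ℝ) ≤ C₁ * w + 1 + C₂ := by
    rw [ht]
    push_cast
    have h3 := (Nat.ceil_lt_add_one hx3).le
    linarith
  have ht2 : C₂ ≤ t := by omega
  have h2t : (0 : ℝ) < (2 : ℝ) ^ t := by positivity
  -- the main estimate
  have hmain : Real.exp (-((2 : ℝ) ^ t * (1 + Real.log n))) ≤ rDet n := by
    rcases Nat.eq_zero_or_pos (n / 2 ^ t) with hq | hq
    · -- `n < 2 ^ t`
      have hnt : n < 2 ^ t := by
        rcases (Nat.div_eq_zero_iff).1 hq with h3 | h3
        · exact absurd h3 (by positivity)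
        · exact h3
      have hntR : (n : ℝ) ≤ (2 : ℝ) ^ t := by
        have : (n : ℝ) < ((2 ^ t : ℕ) : ℝ) := by exact_mod_cast hnt
        push_cast at this
        exact this.le
      unfold rDet
      rw [le_div_iff₀ (Real.rpow_pos_of_pos hn0 _), Real.rpow_def_of_pos hn0, ← Real.exp_add]
      refine le_trans ?_ (one_le_maxDet n)
      rw [Real.exp_le_one_iff]
      have h3 : (n : ℝ) * Real.log n ≤ (2 : ℝ) ^ t * Real.log n :=
        mul_le_mul_of_nonneg_right hntR hlogn0.le
      have h4 : 0 ≤ (n : ℝ) * Real.log n := by positivity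
      have h5 : (2 : ℝ) ^ t * (1 + Real.log n) = (2 : ℝ) ^ t + (2 : ℝ) ^ t * Real.log n := by ring
      rw [h5]
      have h6 : Real.log n * ((n : ℝ) / 2) = (n : ℝ) * Real.log n / 2 := by ring
      rw [h6]
      linarith
    · -- the Hadamard order `2 ^ t q`
      set q : ℕ := n / 2 ^ t with hqdef
      have hqn : q ≤ n := Nat.div_le_self _ _
      have hmn : 2 ^ t * q ≤ n := Nat.mul_div_le n (2 ^ t)
      have hm0 : 0 < 2 ^ t * q := Nat.mul_pos (by positivity) hq
      have hH : HadOrder (2 ^ t * q) := by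
        by_cases hq16 : q < 16
        · exact h2 q t hq hq16 ht2
        · have hq16' : 16 ≤ q := by omega
          refine h1 q t hq16' (le_trans ?_ htl)
          have h3 : 0 < Real.log q := by
            have := hlog16 q hq16'
            linarith
          have hqR : (0 : ℝ) < q := by
            exact_mod_cast hq
          have h4 : Real.log q ≤ Real.log n :=
            Real.log_le_log hqR (by exact_mod_cast hqn)
          have h5 : Real.log (Real.log q) ≤ x := Real.log_le_log h3 h4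
          have h6 : 1.01 ≤ Real.log (Real.log q) := hll q hq16'
          have h7 : Real.log (Real.log (Real.log q)) ≤ y := Real.log_le_log (by linarith) h5
          have h8 : 0 ≤ Real.log (Real.log (Real.log q)) := Real.log_nonneg (by linarith)
          have h9 : Real.log (Real.log (Real.log q)) ^ 2 ≤ y ^ 2 := pow_le_pow_left₀ h8 h7 2
          have h10 : Real.log (Real.log q) * Real.log (Real.log (Real.log q)) ^ 2 ≤ x * y ^ 2 :=
            mul_le_mul h5 h9 (sq_nonneg _) (by linarith)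
          rw [mul_assoc]
          exact mul_le_mul_of_nonneg_left h10 hC₁.le
      refine le_trans ?_ (rDet_lower hm0 hmn hH)
      apply Real.exp_le_exp.2
      have h3 : n < 2 ^ t * q + 2 ^ t := by
        have h4 : 2 ^ t * q + n % 2 ^ t = n := Nat.div_add_mod n (2 ^ t)
        have h5 : n % 2 ^ t < 2 ^ t := Nat.mod_lt n (show 0 < 2 ^ t by positivity)
        have h6 : 2 ^ t * q + n % 2 ^ t < 2 ^ t * q + 2 ^ t := Nat.add_lt_add_left h5 _
        rw [h4] at h6
        exact h6
      have h4 : (n : ℝ) - ((2 ^ t * q : ℕ) : ℝ) ≤ (2 : ℝ) ^ t := by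
        have h5 : (n : ℝ) < ((2 ^ t * q + 2 ^ t : ℕ) : ℝ) := by exact_mod_cast h3
        push_cast at h5 ⊢
        linarith
      have h5 : ((n : ℝ) - ((2 ^ t * q : ℕ) : ℝ)) * (1 + Real.log n) ≤
          (2 : ℝ) ^ t * (1 + Real.log n) :=
        mul_le_mul_of_nonneg_right h4 (by linarith)
      rw [neg_mul]
      exact neg_le_neg h5
  -- comparison of the exponents
  refine le_trans (Real.exp_le_exp.2 (neg_le_neg ?_)) hmain
  have h3 : (2 : ℝ) ^ t = Real.exp (t * Real.log 2) := by
    rw [mul_comm, Real.exp_mul, Real.exp_log (by norm_num)]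
    exact (Real.rpow_natCast 2 t).symm
  have h4 : 1 + Real.log n ≤ Real.exp (x + Real.log 2) := by
    rw [Real.exp_add, Real.exp_log (by norm_num : (0 : ℝ) < 2), hex]
    linarith
  have h5 : (2 : ℝ) ^ t * (1 + Real.log n) ≤ Real.exp (t * Real.log 2 + (x + Real.log 2)) := by
    rw [Real.exp_add, ← h3]
    exact mul_le_mul_of_nonneg_left h4 h2t.le
  refine h5.trans (Real.exp_le_exp.2 ?_)
  have hC2 : (0 : ℝ) ≤ C₂ := Nat.cast_nonneg _
  have h1w : 1 ≤ 20000 * w := by linarith
  have h6 : (t : ℝ) * Real.log 2 ≤ t := by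
    have : (0 : ℝ) ≤ t := Nat.cast_nonneg _
    nlinarith
  have h7 : (C₂ : ℝ) ≤ C₂ * (20000 * w) := by nlinarith
  have h8 : (C₁ + (C₂ + 3) * 20000) * x * y ^ 2
      = C₁ * w + C₂ * (20000 * w) + 3 * (20000 * w) := by
    rw [hw]
    ring
  rw [h8]
  linarith

end HadCalc
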