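import Pool.Agent.Lib_MP_008adc_bi.FLog2A
import Pool.Agent.Lib_MP_008adc_bi.Levels

/-!
# Piece FLOG2: the theorem on Hadamard orders with logarithms
-/

set_option autoImplicit false

namespace HadCalc

theorem hadOrder_lll : ∃ C : ℝ, 0 < C ∧ ∀ q t : ℕ, 16 ≤ q →
    C * Real.log (Real.log q) * Real.log (Real.log (Real.log q)) ^ 2 ≤ t →
      HadOrder (2 ^ t * q) :=
  hadOrder_lll_of exists_const2

theorem hadOrder_small2 : ∃ C : ℕ, ∀ q t : ℕ, 0 < q → q < 16 → C ≤ t →
    HadOrder (2 ^ t * q) :=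
  hadOrder_small2_of exists_const2

end HadCalc
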