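import Pool.Agent.Lib_MP_008adc_bi.Defs
import Pool.Agent.Lib_MP_008adc_co.HadA

/-!
# Piece FLOG2: from the constant to logarithms (hypothesis form)
-/

set_option autoImplicit false

namespace HadCalc

theorem hadOrder_lll_of (H : ∃ C : ℕ, ∀ e q t : ℕ, 0 < q → q < 2 ^ (2 ^ e) →
    C * (e + 1) * (Nat.log 2 (e + 1) + 1) ^ 2 ≤ t → HadOrder (2 ^ t * q)) : ∃ C : ℝ, 0 < C ∧ ∀ q t : ℕ, 16 ≤ q →
    C * Real.log (Real.log q) * Real.log (Real.log (Real.log q)) ^ 2 ≤ t →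
      HadOrder (2 ^ t * q) := by
  obtain ⟨C₀, hC₀⟩ := H
  refine ⟨4050000 * ((C₀ : ℝ) + 1), by positivity, fun q t hq ht => ?_⟩
  set x : ℝ := Real.log (Real.log q) with hx
  have hl2 : (0.6931471803 : ℝ) < Real.log 2 := Real.log_two_gt_d9
  have hq0 : (0 : ℝ) < q := by
    have : 0 < q := by omega
    exact_mod_cast this
  have hlogq : 4 * Real.log 2 ≤ Real.log q := by
    have h1 : Real.log ((2 : ℝ) ^ 4) ≤ Real.log q := by
      apply Real.log_le_log (by norm_num)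
      have h0 : (16 : ℝ) ≤ q := by exact_mod_cast hq
      linarith
    rw [Real.log_pow] at h1
    exact_mod_cast h1
  have hlogq0 : 0 < Real.log q := by linarith
  have hx1 : 1.01 ≤ x := by
    rw [hx, Real.le_log_iff_exp_le hlogq0]
    have h1 := Real.exp_one_lt_d9
    have h2 : (1.01 : ℝ) = 1 + 0.01 := by norm_num
    rw [h2, Real.exp_add]
    have h3 : Real.exp (0.01 : ℝ) ≤ 1 / 0.99 := by
      have h4 : (0.99 : ℝ) ≤ Real.exp (-0.01) := by
        have := Real.add_one_le_exp (-0.01 : ℝ)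
        linarith
      have h5 : Real.exp (0.01 : ℝ) * Real.exp (-0.01) = 1 := by
        rw [← Real.exp_add]
        norm_num
      rw [le_div_iff₀ (by norm_num)]
      calc Real.exp (0.01 : ℝ) * 0.99 ≤ Real.exp (0.01 : ℝ) * Real.exp (-0.01) :=
            mul_le_mul_of_nonneg_left h4 (Real.exp_pos _).le
        _ = 1 := h5
    calc Real.exp 1 * Real.exp 0.01 ≤ 2.7182818286 * (1 / 0.99) :=
          mul_le_mul h1.le h3 (Real.exp_pos _).le (by norm_num)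
      _ ≤ 4 * Real.log 2 := by
          have : (2.7182818286 : ℝ) * (1 / 0.99) ≤ 4 * 0.6931471803 := by norm_num
          linarith
      _ ≤ Real.log q := hlogq
  have hx0 : 0 < x := by linarith
  set y : ℝ := Real.log x with hy
  have hy1 : 0.009 ≤ y := by
    have h1 : 1 - x⁻¹ ≤ Real.log x := Real.one_sub_inv_le_log_of_pos hx0
    have h2 : x⁻¹ ≤ 1 / 1.01 := by
      rw [inv_eq_one_div]
      exact one_div_le_one_div_of_le (by norm_num) hx1
    have h3 : (1 : ℝ) / 1.01 ≤ 0.991 := by norm_num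
    linarith
  set L : ℕ := Nat.log 2 q with hL
  have hL4 : 4 ≤ L := by
    rw [hL]
    exact Nat.le_log_of_pow_le (by norm_num) (by norm_num; exact hq)
  have hLq : (L : ℝ) * Real.log 2 ≤ Real.log q := by
    have h1 : 2 ^ L ≤ q := Nat.pow_log_le_self 2 (by omega)
    have h2 : ((2 : ℝ) ^ L) ≤ q := by exact_mod_cast h1
    rw [← Real.log_pow]
    exact Real.log_le_log (by positivity) h2
  have hLr : (L : ℝ) ≤ 3 / 2 * Real.log q := by
    have h3 : (0 : ℝ) ≤ L := Nat.cast_nonneg L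
    nlinarith
  have hL0 : (0 : ℝ) < L := by
    have : 0 < L := by omega
    exact_mod_cast this
  have hlogL : Real.log L ≤ x + 1 / 2 := by
    have h1 : Real.log L ≤ Real.log (3 / 2 * Real.log q) := Real.log_le_log hL0 hLr
    rw [Real.log_mul (by norm_num) hlogq0.ne'] at h1
    have h2 : Real.log (3 / 2) ≤ 3 / 2 - 1 := Real.log_le_sub_one_of_pos (by norm_num)
    rw [← hx] at h1
    linarith
  set e : ℕ := Nat.log 2 L + 1 with he
  have heL : ((Nat.log 2 L : ℕ) : ℝ) * Real.log 2 ≤ Real.log L := by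
    have h1 : 2 ^ (Nat.log 2 L) ≤ L := Nat.pow_log_le_self 2 (by omega)
    have h2 : ((2 : ℝ) ^ (Nat.log 2 L)) ≤ L := by exact_mod_cast h1
    rw [← Real.log_pow]
    exact Real.log_le_log (by positivity) h2
  have hex : (e : ℝ) ≤ 4 * x := by
    rw [he]
    push_cast
    have h3 : (0 : ℝ) ≤ (Nat.log 2 L : ℕ) := Nat.cast_nonneg _
    nlinarith
  have hex1 : ((e : ℝ) + 1) ≤ 5 * x := by linarith
  -- the logarithm of e + 1
  have hle : ((Nat.log 2 (e + 1) : ℕ) : ℝ) * Real.log 2 ≤ y + 4 := by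
    have h1 : 2 ^ (Nat.log 2 (e + 1)) ≤ e + 1 := Nat.pow_log_le_self 2 (by omega)
    have h2 : ((2 : ℝ) ^ (Nat.log 2 (e + 1))) ≤ 5 * x := by
      have h3 : ((2 : ℝ) ^ (Nat.log 2 (e + 1))) ≤ (e : ℝ) + 1 := by exact_mod_cast h1
      linarith
    rw [← Real.log_pow]
    calc Real.log ((2 : ℝ) ^ (Nat.log 2 (e + 1))) ≤ Real.log (5 * x) :=
          Real.log_le_log (by positivity) h2
      _ = Real.log 5 + y := by rw [Real.log_mul (by norm_num) hx0.ne']
      _ ≤ y + 4 := by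
          have := Real.log_le_sub_one_of_pos (show (0 : ℝ) < 5 by norm_num)
          linarith
  have hl : ((Nat.log 2 (e + 1) : ℕ) : ℝ) + 1 ≤ 900 * y := by
    have h3 : (0 : ℝ) ≤ ((Nat.log 2 (e + 1) : ℕ) : ℝ) := Nat.cast_nonneg _
    have h4 : ((Nat.log 2 (e + 1) : ℕ) : ℝ) * 0.69 ≤ y + 4 := by nlinarith
    nlinarith
  have hqe : q < 2 ^ (2 ^ e) := by
    have h1 : q < 2 ^ (L + 1) := Nat.lt_pow_succ_log_self (by norm_num) q
    have h2 : L < 2 ^ e := Nat.lt_pow_succ_log_self (by norm_num) L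
    exact lt_of_lt_of_le h1 (Nat.pow_le_pow_right (by norm_num) h2)
  apply hC₀ e q t (by omega) hqe
  have h5 : ((C₀ * (e + 1) * (Nat.log 2 (e + 1) + 1) ^ 2 : ℕ) : ℝ) ≤ (t : ℝ) := by
    refine le_trans ?_ ht
    push_cast
    have h3 : (0 : ℝ) ≤ ((Nat.log 2 (e + 1) : ℕ) : ℝ) + 1 := by positivity
    have h6 : (((Nat.log 2 (e + 1) : ℕ) : ℝ) + 1) ^ 2 ≤ (900 * y) ^ 2 := pow_le_pow_left₀ h3 hl 2
    have h7 : (0 : ℝ) ≤ C₀ := Nat.cast_nonneg _
    have h8 : (C₀ : ℝ) * ((e : ℝ) + 1) ≤ ((C₀ : ℝ) + 1) * (5 * x) :=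
      mul_le_mul (by linarith) hex1 (by positivity) (by linarith)
    calc (C₀ : ℝ) * ((e : ℝ) + 1) * (((Nat.log 2 (e + 1) : ℕ) : ℝ) + 1) ^ 2
        ≤ ((C₀ : ℝ) + 1) * (5 * x) * (900 * y) ^ 2 :=
          mul_le_mul h8 h6 (by positivity) (by positivity)
      _ = 4050000 * ((C₀ : ℝ) + 1) * x * y ^ 2 := by ring
  exact_mod_cast h5

/-- Small numbers: for `0 < q < 16` and `t ≥ C` as well. -/
theorem hadOrder_small2_of (H : ∃ C : ℕ, ∀ e q t : ℕ, 0 < q → q < 2 ^ (2 ^ e) →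
    C * (e + 1) * (Nat.log 2 (e + 1) + 1) ^ 2 ≤ t → HadOrder (2 ^ t * q)) : ∃ C : ℕ, ∀ q t : ℕ, 0 < q → q < 16 → C ≤ t →
    HadOrder (2 ^ t * q) := by
  obtain ⟨C₀, hC₀⟩ := H
  refine ⟨C₀ * (2 + 1) * (Nat.log 2 (2 + 1) + 1) ^ 2, fun q t hq0 hq ht => ?_⟩
  exact hC₀ 2 q t hq0 (by norm_num; exact hq) ht

end HadCalc
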