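import Pool.Agent.Lib_MP_008adc_co.NSet
import Pool.Agent.Lib_MP_008adc_co.NCond

/-!
# Products of distinct odd primes
-/

set_option autoImplicit false

namespace HadNT

/-- The products of `k` distinct odd primes `≤ A`. -/
def PO (A k : ℕ) : Finset ℕ :=
  (Finset.powersetCard k (((Finset.range (A + 1)).filter Nat.Prime).erase 2)).image
    (fun s => ∏ p ∈ s, p)

theorem PO_mem {A k u : ℕ} (hu : u ∈ PO A k) :
    ∃ s : Finset ℕ, (∀ p ∈ s, p.Prime ∧ p ≠ 2 ∧ p ≤ A) ∧ s.card = k ∧ u = ∏ p ∈ s, p := by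
  unfold PO at hu
  obtain ⟨s, hs, rfl⟩ := Finset.mem_image.1 hu
  obtain ⟨h1, h2⟩ := Finset.mem_powersetCard.1 hs
  refine ⟨s, fun p hp => ?_, h2, rfl⟩
  have h4 := Finset.mem_erase.1 (h1 hp)
  have h3 := Finset.mem_filter.1 h4.2
  exact ⟨h3.2, h4.1, Nat.lt_succ_iff.1 (Finset.mem_range.1 h3.1)⟩

theorem PO_card (A k : ℕ) (hA : 2 ≤ A) :
    (PO A k).card = (Nat.primeCounting A - 1).choose k := by
  unfold PO
  rw [Finset.card_image_of_injOn, Finset.card_powersetCard, Finset.card_erase_of_mem,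
    Nat.primeCounting, Nat.primeCounting', Nat.count_eq_card_filter_range]
  · rw [Finset.mem_filter, Finset.mem_range]
    exact ⟨by omega, Nat.prime_two⟩
  intro s hs s' hs' h
  have hp : ∀ t ∈ (Finset.powersetCard k (((Finset.range (A + 1)).filter Nat.Prime).erase 2) :
      Set (Finset ℕ)), ∀ p ∈ t, p.Prime := by
    intro t ht p hpt
    have h1 := (Finset.mem_powersetCard.1 (Finset.mem_coe.1 ht)).1 hpt
    exact (Finset.mem_filter.1 (Finset.mem_erase.1 h1).2).2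
  have h' : ∏ p ∈ s, p = ∏ p ∈ s', p := h
  rw [← Nat.primeFactors_prod (hp s hs), h', Nat.primeFactors_prod (hp s' hs')]

theorem PO_bound {A k u : ℕ} (hu : u ∈ PO A k) : 1 ≤ u ∧ u ≤ A ^ k := by
  obtain ⟨s, hs, hk, rfl⟩ := PO_mem hu
  refine ⟨Finset.prod_pos fun p hp => (hs p hp).1.pos, ?_⟩
  rw [← hk]
  exact Finset.prod_le_pow_card s (fun p => p) A fun p hp => (hs p hp).2.2

theorem PO_odd {A k u : ℕ} (hu : u ∈ PO A k) : Odd u := by
  obtain ⟨s, hs, _, rfl⟩ := PO_mem hu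
  refine Finset.prod_induction (fun p => p) Odd (fun a b ha hb => ha.mul hb) odd_one ?_
  intro p hp
  exact (hs p hp).1.odd_of_ne_two (hs p hp).2.1

theorem PO_prod {b k u : ℕ} (hb : 2 ≤ b) (hu : u ∈ PO (2 ^ b) k) :
    ∃ l : List ℕ, l.length = k ∧ (∀ y ∈ l, y < 2 ^ b) ∧ l.prod = u := by
  obtain ⟨s, hs, hk, rfl⟩ := PO_mem hu
  refine ⟨s.toList, by rw [Finset.length_toList, hk], fun y hy => ?_, ?_⟩
  · have h := hs y (Finset.mem_toList.1 hy)
    refine lt_of_le_of_ne h.2.2 fun h0 => ?_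
    have h1 := h.1
    rw [h0] at h1
    exact Nat.Prime.not_prime_pow hb h1
  · rw [← Finset.prod_map_toList s (fun p => p), List.map_id']

theorem PO_size {b k l : ℕ} (hb : 2 ≤ b) (hk : 1 ≤ k) (hl : 4 * b * k ≤ 2 ^ l) (hlb : l ≤ b) :
    (2 ^ b) ^ k ≤ 2 ^ (l * k) * (PO (2 ^ b) k).card := by
  have h2 : 2 ≤ 2 ^ b := by
    calc 2 = 2 ^ 1 := by norm_num
      _ ≤ 2 ^ b := Nat.pow_le_pow_right (by norm_num) (by omega)
  rw [PO_card _ _ h2]
  set π := Nat.primeCounting (2 ^ b) with hπ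
  have hP : 2 ^ b ≤ 2 * b * π := pi_two_pow b (by omega)
  have h3 : 2 ≤ π := by
    have h9 : Nat.primeCounting 4 ≤ Nat.primeCounting (2 ^ b) := by
      refine Nat.monotone_primeCounting ?_
      calc 4 = 2 ^ 2 := by norm_num
        _ ≤ 2 ^ b := Nat.pow_le_pow_right (by norm_num) hb
    have h10 : Nat.primeCounting 4 = 2 := by decide
    omega
  obtain ⟨ρ, hρ⟩ : ∃ ρ, π = ρ + 1 := ⟨π - 1, by omega⟩
  have h4 : π - 1 = ρ := by omega
  rw [h4]
  have hP' : 2 ^ b ≤ 4 * b * ρ := by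
    rw [hρ] at hP
    have : 1 ≤ ρ := by omega
    nlinarith
  have hkρ : k ≤ ρ := by
    have e1 : 4 * b * k ≤ 4 * b * ρ :=
      hl.trans ((Nat.pow_le_pow_right (by norm_num) hlb).trans hP')
    exact Nat.le_of_mul_le_mul_left e1 (by omega)
  calc (2 ^ b) ^ k ≤ (4 * b * ρ) ^ k := Nat.pow_le_pow_left hP' k
    _ = (4 * b) ^ k * ρ ^ k := mul_pow _ _ _
    _ ≤ (4 * b) ^ k * (k ^ k * ρ.choose k) :=
        Nat.mul_le_mul_left _ (pow_le_pow_mul_choose ρ k hkρ)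
    _ = (4 * b * k) ^ k * ρ.choose k := by rw [mul_pow (4 * b) k k]; ring
    _ ≤ (2 ^ l) ^ k * ρ.choose k := Nat.mul_le_mul_right _ (Nat.pow_le_pow_left hl k)
    _ = 2 ^ (l * k) * ρ.choose k := by rw [← pow_mul]

end HadNT
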