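import Pool.Agent.Lib_MP_008adc_bi.Avail
import Pool.Agent.Lib_MP_008adc_bi.Blocks
import Pool.Agent.Lib_MP_008adc_bi.Count8

/-!
# One step of the chain
-/

set_option autoImplicit false

namespace HadCalc

theorem EE_add {f K r : ℕ} (hK : 1 ≤ K) : EE f (K + r) = EE f K + (f + 1) * r := by
  obtain ⟨k, rfl⟩ := Nat.exists_eq_add_of_le' hK
  unfold EE
  have h1 : k + 1 + r - 1 = k + r := by omega
  rw [h1, Nat.add_sub_cancel]
  ring

theorem stepJ {a f c b l J K z : ℕ} (h : Cov a f c) (hba : b ≤ a) (hb : 7 ≤ b)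
    (hlb : 8 * l + 8 ≤ b) (hJ : 4 * b * 2 ^ J ≤ 2 ^ l) (hK : 2 ^ (J + 2) ≤ K)
    (hz : 2 ^ (b * 2 ^ (J + 2)) ≤ z) :
    ∃ z' : ℕ, z' * 2 ^ ((f + 1) * (b * 2 ^ J / (f + 1))) ≤ z ∧
      ∀ n, Rep f c n (2 ^ EE f (K + b * 2 ^ J / (f + 1)) * z') →
        Rep f c (n + 9) (2 ^ EE f K * z) := by
  obtain ⟨ρ, hρ⟩ : ∃ ρ, ρ = b * 2 ^ J / (f + 1) := ⟨_, rfl⟩
  obtain ⟨R, hR⟩ : ∃ R, R = (f + 1) * ρ := ⟨_, rfl⟩
  have hRle : R ≤ b * 2 ^ J := by
    rw [hR, hρ]
    exact Nat.mul_div_le _ _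
  have hK1 : 1 ≤ K := le_trans Nat.one_le_two_pow hK
  obtain ⟨τ, T, g, hne, hodd, hprod, hsize, hS⟩ := HadNT.blocks b l (by omega) hlb J hJ
  have hb1 : b ≤ b * 2 ^ J := Nat.le_mul_of_pos_right _ (by positivity)
  obtain ⟨ε, hε⟩ : ∃ ε, ε = z % 2 := ⟨_, rfl⟩
  have hε2 : ε < 2 := by rw [hε]; exact Nat.mod_lt _ (by norm_num)
  have hεz : ε ≤ z := by rw [hε]; exact Nat.mod_le _ _
  have heven : Even (z - ε) := by
    rw [Nat.even_iff]
    omega
  obtain ⟨t, ht, hsum⟩ := HadNT.eight (R := R) hb T g hne hodd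
    (fun h i hi hib ho => (hS R h i hi (hib.trans hb1) ho).1 hib)
    (fun h i hi ho => by
      have h1 : addOrderOf h ∣ 2 ^ R := by
        have := addOrderOf_dvd_card (x := h)
        rwa [ZMod.card] at this
      rw [ho] at h1
      have h2 : i ≤ R := (Nat.pow_dvd_pow_iff_le_right (by norm_num)).1 h1
      exact (hS R h i (by omega) (h2.trans hRle) ho).2) (z - ε) heven
  obtain ⟨s, hs⟩ : ∃ s, s = ∑ j, g (t j) := ⟨_, rfl⟩
  rw [← hs] at hsum
  have hmod : s ≡ z - ε [MOD 2 ^ R] := (ZMod.natCast_eq_natCast_iff _ _ _).1 hsum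
  -- the size
  have hz1 : 1 ≤ z := le_trans Nat.one_le_two_pow hz
  have hs1 : s * 2 ^ (3 * b) ≤ 8 * z := by
    rw [hs, Finset.sum_mul]
    calc ∑ j : Fin 8, g (t j) * 2 ^ (3 * b) ≤ ∑ _j : Fin 8, z :=
          Finset.sum_le_sum fun j _ => (hsize _ (ht j)).trans hz
      _ = 8 * z := by rw [Finset.sum_const, Finset.card_univ, Fintype.card_fin, smul_eq_mul]
  have hs2 : s * 16 ≤ 8 * z := by
    refine le_trans (Nat.mul_le_mul_left _ ?_) hs1
    calc 16 = 2 ^ 4 := by norm_num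
      _ ≤ 2 ^ (3 * b) := Nat.pow_le_pow_right (by norm_num) (by omega)
  have hs3 : s ≤ z - ε := by omega
  obtain ⟨z', hz'⟩ : 2 ^ R ∣ (z - ε) - s := (Nat.modEq_iff_dvd' hs3).1 hmod
  have hdec : z = ε + s + 2 ^ R * z' := by omega
  rw [← hρ, ← hR]
  refine ⟨z', ?_, ?_⟩
  · rw [mul_comm z']
    omega
  · intro n hn
    have h1 : Rep f c 1 (2 ^ EE f K * ε) := by
      apply Rep.one
      have h2 := item h (by omega) hK1 [ε] (by simpa using hK1) (by
        intro y hy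
        rw [List.mem_singleton.1 hy]
        refine lt_of_lt_of_le hε2 ?_
        calc 2 = 2 ^ 1 := by norm_num
          _ ≤ 2 ^ a := Nat.pow_le_pow_right (by norm_num) (by omega))
      rwa [List.prod_singleton] at h2
    have h2 : Rep f c 8 (2 ^ EE f K * s) := by
      refine ⟨List.ofFn (fun j : Fin 8 => 2 ^ EE f K * g (t j)), by rw [List.length_ofFn], ?_, ?_⟩
      · intro L hL
        rw [List.mem_ofFn] at hL
        obtain ⟨j, rfl⟩ := hL
        obtain ⟨x, hx1, hx2, hx3⟩ := hprod _ (ht j)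
        rw [← hx3]
        refine item h (by omega) hK1 x (by omega) fun y hy => ?_
        exact lt_of_lt_of_le (hx2 y hy) (Nat.pow_le_pow_right (by norm_num) hba)
      · rw [List.sum_ofFn, hs, Finset.mul_sum]
    have h3 := (hn.add (h1.add h2))
    have h4 : 2 ^ EE f (K + ρ) * z' + (2 ^ EE f K * ε + 2 ^ EE f K * s) = 2 ^ EE f K * z := by
      rw [EE_add hK1, ← hR, pow_add]
      conv_rhs => rw [hdec]
      ring
    rw [h4] at h3
    exact h3

end HadCalc
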