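import Pool.Agent.Lib_MP_008adc_bi.Defs
import Pool.Agent.Lib_MP_008adc_co.HadA
import Pool.Agent.Lib_MP_008adc_co.DetL

/-!
# Frozen statements (work in your own file, do not import this one)
-/

set_option autoImplicit false

namespace HadCalc

/-! ## Avail.lean -/

theorem Rep.add {f c n m y z : ℕ} (h1 : Rep f c n y) (h2 : Rep f c m z) :
    Rep f c (n + m) (y + z) := by
  sorry

theorem Rep.mono {f c n m y : ℕ} (h : Rep f c n y) (hnm : n ≤ m) : Rep f c m y := by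
  sorry

theorem Rep.one {f c y : ℕ} (h : Av f c y) : Rep f c 1 y := by
  sorry

/-- A product of at most `K` factors `< 2 ^ a`. Pad the list with ones, `Av.prod_list` for the
doubled numbers. -/
theorem item {a f c K : ℕ} (h : Cov a f c) (ha : 1 ≤ a) (hK : 1 ≤ K) (x : List ℕ)
    (hl : x.length ≤ K) (hx : ∀ y ∈ x, y < 2 ^ a) : Av f c (2 ^ EE f K * x.prod) := by
  sorry

/-- The sum rule for a representation. -/
theorem Rep.av {f c n y : ℕ} (h : Rep f c n y) : Av (f + 1) (n * (c + f + 2)) (2 * y) := by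
  sorry

/-! ## StepJ.lean (uses HadNT.blocks and HadNT.eight) -/

theorem stepJ {a f c b l J K z : ℕ} (h : Cov a f c) (hba : b ≤ a) (hb : 7 ≤ b)
    (hlb : 8 * l + 8 ≤ b) (hJ : 4 * b * 2 ^ J ≤ 2 ^ l) (hK : 2 ^ (J + 2) ≤ K)
    (hz : 2 ^ (b * 2 ^ (J + 2)) ≤ z) :
    ∃ z' : ℕ, z' * 2 ^ ((f + 1) * (b * 2 ^ J / (f + 1))) ≤ z ∧
      ∀ n, Rep f c n (2 ^ EE f (K + b * 2 ^ J / (f + 1)) * z') →
        Rep f c (n + 9) (2 ^ EE f K * z) := by
  sorry

/-! ## Chain.lean (from item, stepJ) -/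

/-- THE STEP. -/
theorem Cov.big {e f c : ℕ} (hf : f ≤ 21) (h : Cov (64 * e + 352) f c) :
    Cov (2 ^ e) (f + 1) ((81 * e + 3) * (c + f + 2)) := by
  sorry

/-! ## Levels.lean (from Cov.big) -/

/-- Binary digits: powers of two are available with `(1, 8)`. -/
theorem Cov.lin (a : ℕ) : Cov a 2 (11 * a) := by
  sorry

/-- There is a constant `C` such that for all `e` and all `0 < q < 2 ^ (2 ^ e)` and all
`t ≥ C (e + 1) (log₂ (e + 1) + 1) ^ 2` there is a Hadamard matrix of order `2 ^ t q`. -/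
theorem exists_const2 : ∃ C : ℕ, ∀ e q t : ℕ, 0 < q → q < 2 ^ (2 ^ e) →
    C * (e + 1) * (Nat.log 2 (e + 1) + 1) ^ 2 ≤ t → HadOrder (2 ^ t * q) := by
  sorry

/-! ## FLog2.lean (from exists_const2) -/

theorem hadOrder_lll : ∃ C : ℝ, 0 < C ∧ ∀ q t : ℕ, 16 ≤ q →
    C * Real.log (Real.log q) * Real.log (Real.log (Real.log q)) ^ 2 ≤ t →
      HadOrder (2 ^ t * q) := by
  sorry

theorem hadOrder_small2 : ∃ C : ℕ, ∀ q t : ℕ, 0 < q → q < 16 → C ≤ t →
    HadOrder (2 ^ t * q) := by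
  sorry

/-! ## DetB2.lean (from hadOrder_lll, hadOrder_small2, rDet_lower) -/

theorem rDet_lll : ∃ C : ℝ, ∀ n : ℕ, 16 ≤ n →
    Real.exp (-Real.exp (C * Real.log (Real.log n) * Real.log (Real.log (Real.log n)) ^ 2)) ≤
      rDet n := by
  sorry

end HadCalc
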